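import Mathlib
import Pool.Agent.Rig32f.Transfer

open MvPolynomial

namespace Pool.Agent.H58LM

/-- Algebraic independence is linear independence of the differentials (characteristic zero). -/
theorem lin_iff {K L : Type} [Field K] [Field L] [Algebra K L] [CharZero K] {n : ℕ}
    (x : Fin n → L) (F : Finset (Fin n)) :
    AlgebraicIndependent K (fun i : {i // i ∈ F} => x i) ↔
      LinearIndependent L (fun i : {i // i ∈ F} => KaehlerDifferential.D K L (x i)) := by
  classical
  constructor
  · intro h
    rw [Fintype.linearIndependent_iff]
    intro g hg j
    obtain ⟨D, hD⟩ := Rig32f.exists_derivation (K := K) (fun i : {i // i ∈ F} => x i) h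
      (fun i => if i = j then 1 else 0)
    have h1 := congrArg D.liftKaehlerDifferential hg
    rw [map_zero, map_sum] at h1
    simp only [map_smul, Derivation.liftKaehlerDifferential_comp_D] at h1
    rw [Finset.sum_eq_single j] at h1
    · simpa [hD j] using h1
    · intro i _ hij
      simp [hD i, hij]
    · simp
  · intro h
    by_contra hF
    have hempty : AlgebraicIndepOn K x (∅ : Set (Fin n)) := by
      show AlgebraicIndependent K _
      rw [algebraicIndependent_empty_type_iff]
      exact (algebraMap K L).injective
    obtain ⟨s, -, hs⟩ := Finite.exists_le_maximal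
      (p := fun s : Set (Fin n) => s ⊆ (F : Set (Fin n)) ∧ AlgebraicIndepOn K x s)
      (a := ∅) ⟨Set.empty_subset _, hempty⟩
    have hne : s ≠ (F : Set (Fin n)) := by
      rintro rfl
      exact hF hs.prop.2
    obtain ⟨i, hiF, his⟩ := Set.exists_of_ssubset (hs.prop.1.ssubset_of_ne hne)
    have hd : ¬ AlgebraicIndepOn K x (insert i s) := by
      intro hd
      exact his (hs.le_of_ge ⟨Set.insert_subset hiF hs.prop.1, hd⟩ (Set.subset_insert _ _)
        (Set.mem_insert _ _))
    obtain ⟨P, hP, hP0, hPi⟩ := Rig32f.exists_relation x s i hs.prop.2 hd
    have h1 := Rig32f.derivation_aeval (KaehlerDifferential.D K L) x P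
    rw [hP0, map_zero] at h1
    have h2 : ∑ j : {j // j ∈ F}, aeval x (pderiv (j : Fin n) P) •
        KaehlerDifferential.D K L (x j) = 0 := by
      rw [Finset.sum_coe_sort F (fun j => aeval x (pderiv (j : Fin n) P) •
        KaehlerDifferential.D K L (x j))]
      rw [h1]
      refine Finset.sum_subset (Finset.subset_univ _) fun j _ hj => ?_
      have : j ∉ P.vars := by
        intro hjv
        rcases (mem_supported.mp hP) hjv with h | h
        · exact hj (h ▸ hiF)
        · exact hj (hs.prop.1 h)
      rw [pderiv_eq_zero_of_notMem_vars this, map_zero, zero_smul]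
    rw [Fintype.linearIndependent_iff] at h
    exact hPi (h _ h2 ⟨i, hiF⟩)

/-- Over a subring of a field of characteristic zero, the algebraically independent subfamilies of
a finite family are the linearly independent subfamilies of a family of vectors. -/
theorem exists_lin {L : Type} [Field L] [CharZero L] (A : Subring L) {n : ℕ} (x : Fin n → L) :
    ∃ (V : Type) (_ : AddCommGroup V) (_ : Module L V) (v : Fin n → V),
      ∀ F : Finset (Fin n), AlgebraicIndependent A (fun i : {i // i ∈ F} => x i) ↔
        LinearIndependent L (fun i : {i // i ∈ F} => v i) := by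
  classical
  let K := FractionRing A
  let _ : Algebra K L := FractionRing.liftAlgebra A L
  have : IsScalarTower A K L := FractionRing.isScalarTower_liftAlgebra A L
  have hinj : Function.Injective (algebraMap K L) := (algebraMap K L).injective
  have : CharZero K := ⟨fun a b hab => by
    have := congrArg (algebraMap K L) hab
    simpa using this⟩
  have halg : Algebra.IsAlgebraic A K := IsLocalization.isAlgebraic K (nonZeroDivisors A)
  refine ⟨KaehlerDifferential K L, inferInstance, inferInstance,
    fun i => KaehlerDifferential.D K L (x i), fun F => ?_⟩
  rw [← lin_iff]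
  constructor
  · intro h
    exact h.extendScalars K
  · intro h
    exact h.restrictScalars (IsFractionRing.injective A K)

end Pool.Agent.H58LM
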